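import Pool.Agent.Lib.MP_b7b1cf_co.Chi.Core

/-! Coloured systems: vectors that are constant on the colour classes. -/

set_option autoImplicit false
set_option linter.unusedSectionVars false

namespace Pool.Agent.Lib.MP_b7b1cf_co.Chi

open Finset Function Pool.Agent.Lib.MP_b7b1cf_co.U

universe u v

variable {F : Type u} {ι : Type v} [Fintype F] [DecidableEq F] [Fintype ι] [DecidableEq ι]
  {L : Set (F → SignType)} {R : (ι → F) → SignType → Prop}

theorem sq_one {a : SignType} (h : a ≠ 0) : a * a = 1 := by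
  revert h
  cases a <;> simp

theorem smul_mem (h : IsOM L) {c : SignType} {V : F → SignType} (hV : V ∈ L) :
    (fun f => c * V f) ∈ L := by
  cases c
  · have : (fun f => SignType.zero * V f) = 0 := funext fun f => by simp
    rw [this]
    exact h.zero
  · have : (fun f => SignType.neg * V f) = -V := funext fun f => by simp
    rw [this]
    exact h.neg V hV
  · have : (fun f => SignType.pos * V f) = V := funext fun f => by simp
    rw [this]
    exact hV

/-- Reorientation. -/
theorem Sys.reor (h : Sys L R) (o : F → SignType) (ho : ∀ f, o f ≠ 0) :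
    Sys {V | (fun f => o f * V f) ∈ L} fun w s => R w (s * ∏ i, o (w i)) := by
  have oo : ∀ (V : F → SignType), (fun f => o f * (o f * V f)) = V := fun V =>
    funext fun f => by rw [← mul_assoc, sq_one (ho f), one_mul]
  have z : ∀ f a, o f * a = 0 ↔ a = 0 := fun f a => by
    rw [mul_eq_zero, or_iff_right (ho f)]
  refine ⟨⟨?_, fun X hX => ?_, fun X hX Y hY => ?_, fun X hX Y hY e h1 h2 => ?_⟩,
    fun hw e => h.ne hw (by rw [e, zero_mul]), fun {w s} i j hw hij => ?_,
    fun {w s V} hw hV h0 => ?_, fun {w s} g hw hg => ?_⟩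
  · show (fun f => o f * (0 : F → SignType) f) ∈ L
    have : (fun f => o f * (0 : F → SignType) f) = 0 := funext fun f => by simp
    rw [this]
    exact h.om.zero
  · show (fun f => o f * (-X) f) ∈ L
    have : (fun f => o f * (-X) f) = -fun f => o f * X f := funext fun f => by simp
    rw [this]
    exact h.om.neg _ hX
  · show (fun f => o f * U.cmp X Y f) ∈ L
    have : (fun f => o f * U.cmp X Y f) = U.cmp (fun f => o f * X f) fun f => o f * Y f :=
      funext fun f => by
        by_cases e : X f = 0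
        · rw [cmp_zero e, cmp_zero (X := fun f => o f * X f) ((z f _).2 e)]
        · rw [cmp_ne e, cmp_ne (X := fun f => o f * X f) fun k => e ((z f _).1 k)]
    rw [this]
    exact h.om.comp _ hX _ hY
  · obtain ⟨W, hW, w1, w2⟩ := h.om.elim _ hX _ hY e (fun k => h1 ((z e _).1 k))
      (by show o e * X e = -(o e * Y e); rw [h2, mul_neg])
    refine ⟨fun f => o f * W f, by show _ ∈ L; rwa [oo], (z e _).2 w1, fun f hf => ?_⟩
    have k := w2 f (hf.imp (z f _).2 fun k q => k (by
      have q' : o f * X f = -(o f * Y f) := q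
      rw [← mul_neg] at q'
      rw [← congrFun (oo X) f, q', ← mul_assoc, sq_one (ho f), one_mul]))
    show o f * W f = _
    rw [k]
    by_cases e : X f = 0
    · rw [if_pos e, if_pos ((z f _).2 e)]
      exact congrFun (oo Y) f
    · rw [if_neg e, if_neg fun k => e ((z f _).1 k)]
      exact congrFun (oo X) f
  · have k := h.swap i j hw hij
    show R _ (-s * ∏ k, o (w (Equiv.swap i j k)))
    rwa [Equiv.prod_comp (Equiv.swap i j) fun k => o (w k), neg_mul]
  · have k := h.ind hw hV fun f hf => (z f _).2 (h0 f hf)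
    exact funext fun f => (z f _).1 (congrFun k f)
  · obtain ⟨C, hC, c1, c2, c3⟩ := h.fund g hw hg
    refine ⟨fun f => o f * (o g * C f), by show _ ∈ L; rw [oo]; exact smul_mem h.om hC,
      by show o g * (o g * C g) = 1; rw [c1, mul_one, sq_one (ho g)],
      fun f h1 h2 => by show o f * (o g * C f) = 0; rw [c2 f h1 h2, mul_zero, mul_zero],
      fun i hi => ?_⟩
    have k := c3 i fun q => hi (by show o _ * (o g * C _) = 0; rw [q, mul_zero, mul_zero])
    have e1 : ∏ k, o (update w i g k) = o g * ∏ k ∈ univ.erase i, o (w k) := by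
      rw [← mul_prod_erase _ _ (mem_univ i), update_self]
      exact congrArg _ (prod_congr rfl fun k hk => by rw [update_of_ne (ne_of_mem_erase hk)])
    have e2 : -(s * (o (w i) * (o g * C (w i)))) * ∏ k, o (update w i g k) =
        -((s * ∏ k, o (w k)) * C (w i)) := by
      rw [e1, ← mul_prod_erase _ (fun k => o (w k)) (mem_univ i)]
      have := sq_one (ho g)
      calc _ = -((s * (o (w i) * ∏ k ∈ univ.erase i, o (w k))) * C (w i)) * (o g * o g) := by
            rw [neg_mul, neg_mul]
            exact congrArg _ (by ac_rfl)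
        _ = _ := by rw [this, mul_one]
    show R _ (-(s * (o (w i) * (o g * C (w i)))) * _)
    rwa [e2]

/-- The signed form of the positive case. -/
theorem Sys.signed (h : Sys L R) {col : F → ι} {G Z : Finset F} {s : SignType} {V : F → SignType}
    (dis : ∀ f ∈ G, f ∉ Z) (alone : ∀ z ∈ Z, ∀ f ∈ G ∪ Z, col f = col z → f = z)
    (cons : ∀ w t, Col col (G ∪ Z) w → R w t →
      t * ∏ i, (if w i ∈ G then V (w i) else 1) = s)
    (ex : ∃ w t, Col col (G ∪ Z) w ∧ R w t) (hV : V ∈ L) (nz : ∀ f ∈ G, V f ≠ 0)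
    (off : ∀ f, f ∉ G ∪ Z → V f = 0) : G = ∅ := by
  have ho : ∀ f, (if f ∈ G then V f else 1) ≠ 0 := fun f => by
    split_ifs with e
    · exact nz f e
    · simp
  have pp : ∀ w : ι → F, (∏ i, (if w i ∈ G then V (w i) else 1)) *
      ∏ i, (if w i ∈ G then V (w i) else 1) = 1 := fun w =>
    sq_one (prod_ne_zero_iff.2 fun i _ => ho _)
  refine Pos.empty (s := s) (h.reor _ ho) _ (col := col) (Z := Z)
    (V := fun f => (if f ∈ G then V f else 1) * V f) rfl
    ⟨dis, alone, fun w t hw hr => ?_, ?_, ?_, fun f hf => ?_, fun f hf => ?_⟩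
  · rw [← cons w _ hw hr, mul_assoc, pp, mul_one]
  · obtain ⟨w, t, hw, hr⟩ := ex
    refine ⟨w, t * ∏ i, (if w i ∈ G then V (w i) else 1), hw, ?_⟩
    rwa [mul_assoc, pp, mul_one]
  · show (fun f => _ * (_ * V f)) ∈ L
    have : (fun f => (if f ∈ G then V f else 1) * ((if f ∈ G then V f else 1) * V f)) = V :=
      funext fun f => by rw [← mul_assoc, sq_one (ho f), one_mul]
    rwa [this]
  · show _ * V f = 1
    rw [if_pos hf, sq_one (nz f hf)]
  · show _ * V f = 0
    rw [off f hf, mul_zero]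

/-- Consistent signs exclude a nonzero vector that is constant on the classes. -/
theorem Sys.of_cons (h : Sys L R) {col : F → ι} {s : SignType}
    (cons : ∀ w t, (∀ i, col (w i) = i) → R w t → t = s) {x : ι → F} {t : SignType}
    (hx : ∀ i, col (x i) = i) (hr : R x t) {V : F → SignType} (hV : V ∈ L)
    (hc : ∀ f g, col f = col g → V f = V g) : V = 0 := by
  have k := h.signed (col := col) (G := univ.filter fun f => V f ≠ 0)
    (Z := univ.filter fun f => V f = 0 ∧ x (col f) = f) (V := V)
    (s := s * ∏ i, (if V (x i) ≠ 0 then V (x i) else 1))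
    (fun f hf k => (mem_filter.1 hf).2 (mem_filter.1 k).2.1) (fun z hz f hf e => ?_)
    (fun w t hw hr => ?_) ⟨x, t, fun i => ⟨?_, hx i⟩, hr⟩ hV (fun f hf => (mem_filter.1 hf).2)
    fun f hf => ?_
  · funext f
    by_contra e
    exact notMem_empty f (k ▸ mem_filter.2 ⟨mem_univ _, e⟩)
  · rcases mem_union.1 hf with q | q
    · exact absurd ((hc f z e).trans (mem_filter.1 hz).2.1) (mem_filter.1 q).2
    · rw [← (mem_filter.1 q).2.2, e, (mem_filter.1 hz).2.2]
  · rw [cons w t (fun i => (hw i).2) hr]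
    refine congrArg _ (prod_congr rfl fun i _ => ?_)
    simp only [mem_filter, mem_univ, true_and, hc (w i) (x i) ((hw i).2.trans (hx i).symm)]
  · by_cases e : V (x i) = 0
    · exact mem_union_right _ (mem_filter.2 ⟨mem_univ _, e, by rw [hx]⟩)
    · exact mem_union_left _ (mem_filter.2 ⟨mem_univ _, e⟩)
  · by_contra e
    exact hf (mem_union_left _ (mem_filter.2 ⟨mem_univ _, e⟩))

/-- Filling up a vector by fundamental circuits. -/
theorem Sys.up (h : Sys L R) {col : F → ι} {x : ι → F} {s : SignType} (hr : R x s) (A : F → Prop)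
    (hA : ∀ g, A g → ∀ i, x i ≠ g) {W : F → SignType} (hW : W ∈ L)
    (bad : ∀ g, A g → W g ≠ 0 → W g = W (x (col g))) :
    ∃ W' ∈ L, (∀ f, W f ≠ 0 → W' f = W f) ∧ (∀ f, ¬ A f → (∀ i, x i ≠ f) → W' f = W f) ∧
      ∀ g, A g → W' g = W' (x (col g)) := by
  obtain ⟨Y, ⟨hY, y1, y2, y3⟩, hm⟩ := exists_minimalFor_of_wellFoundedLT
    (fun Y : F → SignType => Y ∈ L ∧ (∀ f, W f ≠ 0 → Y f = W f) ∧
      (∀ f, ¬ A f → (∀ i, x i ≠ f) → Y f = W f) ∧ ∀ g, A g → Y g ≠ 0 → Y g = Y (x (col g)))
    (fun Y => (univ.filter fun f => Y f = 0).card) ⟨W, hW, fun _ _ => rfl, fun _ _ _ => rfl, bad⟩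
  refine ⟨Y, hY, y1, y2, fun g hg => ?_⟩
  by_contra e
  have g0 : Y g = 0 := by
    by_contra q
    exact e (y3 g hg q)
  have g1 : Y (x (col g)) ≠ 0 := fun q => e (g0.trans q.symm)
  obtain ⟨C, hC, c1, c2, -⟩ := h.fund g hr (hA g hg)
  have vg : U.cmp Y (fun f => Y (x (col g)) * C f) g = Y (x (col g)) := by
    rw [cmp_zero g0, c1, mul_one]
  have off : ∀ f, f ≠ g → (∀ i, x i ≠ f) → U.cmp Y (fun f => Y (x (col g)) * C f) f = Y f := by
    intro f h1 h2
    by_cases q : Y f = 0
    · rw [cmp_zero q, c2 f h1 h2, mul_zero, q]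
    · exact cmp_ne q
  have lt : (univ.filter fun f => U.cmp Y (fun f => Y (x (col g)) * C f) f = 0).card <
      (univ.filter fun f => Y f = 0).card := by
    refine card_lt_card ⟨fun f hf => mem_filter.2 ⟨mem_univ _, ?_⟩, fun k => ?_⟩
    · by_contra q
      exact q ((cmp_ne q).symm.trans (mem_filter.1 hf).2)
    · exact g1 (vg.symm.trans (mem_filter.1 (k (mem_filter.2 ⟨mem_univ _, g0⟩))).2)
  refine absurd (hm (j := U.cmp Y fun f => Y (x (col g)) * C f)
    ⟨h.om.comp _ hY _ (smul_mem h.om hC), fun f hf => ?_, fun f h1 h2 => ?_, fun f hf q => ?_⟩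
    lt.le) (not_le.2 lt)
  · rw [cmp_ne (by rw [y1 f hf]; exact hf), y1 f hf]
  · rw [off f (fun k => h1 (k ▸ hg)) h2, y2 f h1 h2]
  · by_cases k : f = g
    · rw [k, vg, cmp_ne g1]
    · rw [off f k (hA f hf)] at q ⊢
      rw [cmp_ne (by rw [← y3 f hf q]; exact q), y3 f hf q]

/-- A nonzero vector that is constant on the classes. -/
def Bad (L : Set (F → SignType)) (col : F → ι) : Prop :=
  ∃ V ∈ L, V ≠ 0 ∧ ∀ f g, col f = col g → V f = V g

theorem Sys.bad_of_weak (h : Sys L R) {col : F → ι} {x : ι → F} {s : SignType}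
    (hx : ∀ i, col (x i) = i) (hr : R x s) {W : F → SignType} (hW : W ∈ L) (h0 : W ≠ 0)
    (bad : ∀ g, W g ≠ 0 → W g = W (x (col g))) : Bad L col := by
  obtain ⟨V, hV, v1, -, v3⟩ := h.up (col := col) hr (fun g => ∀ i, x i ≠ g) (fun _ k => k) hW
    fun g _ => bad g
  have k : ∀ g, V g = V (x (col g)) := fun g => by
    by_cases q : ∀ i, x i ≠ g
    · exact v3 g q
    · push Not at q
      obtain ⟨i, rfl⟩ := q
      rw [hx]
  refine ⟨V, hV, fun e => h0 (funext fun f => ?_), fun f g e => by rw [k f, k g, e]⟩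
  by_contra q
  exact q ((v1 f q).symm.trans (congrFun e f))

/-- Two coloured bases of different signs give a constant vector. -/
theorem Sys.bad_of_opp (h : Sys L R) {col : F → ι}
    (fn : ∀ w s t, (∀ i, col (w i) = i) → R w s → R w t → s = t)
    (ex : ∃ p : (ι → F) × (ι → F), (∀ i, col (p.1 i) = i) ∧ (∀ i, col (p.2 i) = i) ∧
      ∃ s t, R p.1 s ∧ R p.2 t ∧ s ≠ t) : Bad L col := by
  obtain ⟨⟨x, y⟩, ⟨hx, hy, s, t, rx, ry, hst⟩, hm⟩ := exists_minimalFor_of_wellFoundedLT _
    (fun p : (ι → F) × (ι → F) => (univ.filter fun i => p.1 i ≠ p.2 i).card) ex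
  dsimp only at hx hy rx ry hm
  have mix : ∀ w q, (∀ i, w i = x i ∨ w i = y i) → R w q → w = x ∨ w = y := by
    intro w q hw rw'
    by_contra e
    push Not at e
    have cw : ∀ i, col (w i) = i := fun i => (hw i).elim (fun k => k ▸ hx i) fun k => k ▸ hy i
    by_cases k : q = s
    · obtain ⟨i, hi⟩ := ne_iff.1 e.1
      have lt : (univ.filter fun i => w i ≠ y i).card < (univ.filter fun i => x i ≠ y i).card := by
        refine card_lt_card ⟨fun j hj => mem_filter.2 ⟨mem_univ _, ?_⟩, fun k => ?_⟩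
        · rw [← (hw j).resolve_right (mem_filter.1 hj).2]
          exact (mem_filter.1 hj).2
        · have k1 := (hw i).resolve_left hi
          exact (mem_filter.1 (k (mem_filter.2 ⟨mem_univ i, fun k2 => hi (k1.trans k2.symm)⟩))).2 k1
      exact absurd (hm (j := (w, y)) ⟨cw, hy, q, t, rw', ry, k ▸ hst⟩ lt.le) (not_le.2 lt)
    · obtain ⟨i, hi⟩ := ne_iff.1 e.2
      have lt : (univ.filter fun i => x i ≠ w i).card < (univ.filter fun i => x i ≠ y i).card := by
        refine card_lt_card ⟨fun j hj => mem_filter.2 ⟨mem_univ _, ?_⟩, fun k => ?_⟩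
        · rw [← (hw j).resolve_left (mem_filter.1 hj).2.symm]
          exact (mem_filter.1 hj).2
        · have k1 := (hw i).resolve_right hi
          exact (mem_filter.1 (k (mem_filter.2 ⟨mem_univ i, fun k2 => hi (k1.trans k2)⟩))).2 k1.symm
      exact absurd (hm (j := (x, w)) ⟨hx, cw, s, q, rx, rw', Ne.symm k⟩ lt.le) (not_le.2 lt)
  have ne : x ≠ y := fun e => hst (fn x s t hx rx (e ▸ ry))
  obtain ⟨a, ha⟩ := ne_iff.1 ne
  have xy : ∀ i j, x i = y j → i = j := fun i j e => by rw [← hx i, e, hy j]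
  have na : ∀ i, x i ≠ y a := fun i e => ha (xy i a e ▸ e)
  obtain ⟨C, hC, c1, c2, -⟩ := h.fund (y a) rx na
  obtain ⟨W, hW, w1, w2, w3⟩ := h.up (col := col) rx
    (fun g => g = y (col g) ∧ g ≠ x (col g) ∧ g ≠ y a)
    (fun g k i e => k.2.1 (by rw [← e, hx])) hC
    fun g k q => absurd (c2 g k.2.2 fun i e => k.2.1 (by rw [← e, hx])) q
  have wa : W (y a) = 1 := by rw [w1 _ (by rw [c1]; simp), c1]
  have wi : ∀ i, i ≠ a → W (y i) = W (x i) := fun i hi => by
    by_cases e : y i = x i
    · rw [e]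
    · have k := w3 (y i) ⟨by rw [hy], by rwa [hy], fun k => hi (by rw [← hy i, k, hy])⟩
      rwa [hy] at k
  have wo : ∀ f, W f ≠ 0 → f = x (col f) ∨ f = y (col f) := fun f hf => by
    by_contra e
    push Not at e
    refine hf ((w2 f (fun k => e.2 k.1) fun i k => e.1 (by rw [← k, hx])).trans
      (c2 f (fun k => e.2 (by rw [k, hy])) fun i k => e.1 (by rw [← k, hx])))
  have key : W (x a) = 1 := by
    by_contra e
    have k := h.signed (col := col) (V := W)
      (G := univ.filter fun f => W f ≠ 0 ∧ x (col f) ≠ y (col f))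
      (Z := univ.filter fun f => f = y (col f) ∧ (W f = 0 ∨ x (col f) = y (col f)))
      (s := t * ∏ i, (if W (y i) ≠ 0 ∧ x i ≠ y i then W (y i) else 1))
      (fun f hf k => (mem_filter.1 k).2.2.elim (mem_filter.1 hf).2.1 (mem_filter.1 hf).2.2)
      (fun z hz f hf e => ?_) (fun w q hw hr => ?_) ⟨y, t, fun i => ⟨?_, hy i⟩, ry⟩ hW
      (fun f hf => (mem_filter.1 hf).2.1) fun f hf => ?_
    · refine notMem_empty (y a) (k ▸ mem_filter.2 ⟨mem_univ _, by rw [wa]; simp, by rwa [hy]⟩)
    · obtain ⟨z1, z2⟩ := (mem_filter.1 hz).2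
      rcases mem_union.1 hf with q | q
      · obtain ⟨q1, q2⟩ := (mem_filter.1 q).2
        have z3 := z2.resolve_right (e ▸ q2)
        rcases wo f q1 with k | k
        · refine absurd ?_ q1
          rw [k, e, ← wi, ← z1, z3]
          intro k1
          rw [z1, k1, wa] at z3
          exact absurd z3 (by simp)
        · rw [k, e, ← z1]
      · rw [(mem_filter.1 q).2.1, e, ← z1]
    · have m : ∀ i, w i = x i ∨ w i = y i := fun i => by
        rcases mem_union.1 (hw i).1 with k | k
        · have k1 := wo _ (mem_filter.1 k).2.1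
          rwa [(hw i).2] at k1
        · have k1 := (mem_filter.1 k).2.1
          rw [(hw i).2] at k1
          exact Or.inr k1
      rcases mix w q m hr with rfl | rfl
      · have wa' : W (w a) = -1 := by
          rcases mem_union.1 (hw a).1 with k | k
          · have k1 := (mem_filter.1 k).2.1
            revert k1 e
            cases W (w a) <;> simp
          · have k1 := (mem_filter.1 k).2.1
            rw [hx] at k1
            exact absurd k1 ha
        have qs : q = -t := by
          have k1 := h.ne rx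
          have k2 := h.ne ry
          rw [fn w q s hx hr rx]
          revert k1 k2 hst
          cases s <;> cases t <;> simp
        simp only [mem_filter, mem_univ, true_and, hx]
        rw [← mul_prod_erase _ _ (mem_univ a), ← mul_prod_erase _ _ (mem_univ a), wa, wa', qs,
          if_pos ⟨by simp, ha⟩, if_pos ⟨by simp, ha⟩,
          prod_congr rfl fun i hi => by rw [← wi i (ne_of_mem_erase hi)]]
        simp
      · simp only [mem_filter, mem_univ, true_and, hy]
        rw [fn w q t hy hr ry]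
    · by_cases k : W (y i) ≠ 0 ∧ x i ≠ y i
      · exact mem_union_left _ (mem_filter.2 ⟨mem_univ _, by rwa [hy]⟩)
      · refine mem_union_right _ (mem_filter.2 ⟨mem_univ _, by rw [hy], ?_⟩)
        rw [hy]
        tauto
    · by_contra q
      by_cases k : x (col f) = y (col f)
      · refine hf (mem_union_right _ (mem_filter.2 ⟨mem_univ _, ?_, Or.inr k⟩))
        exact (wo f q).elim (fun k1 => k1.trans k) id
      · exact hf (mem_union_left _ (mem_filter.2 ⟨mem_univ _, q, k⟩))
  refine h.bad_of_weak hx rx hW (fun e => ?_) fun g hg => ?_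
  · rw [e] at wa
    exact absurd wa (by simp)
  · rcases wo g hg with k | k
    · rw [← k]
    · by_cases e : col g = a
      · rw [k, hy, e, wa, key]
      · rw [← wi _ e, ← k]

/-- Without a coloured basis there is a constant vector. -/
theorem Sys.bad_of_none (h : Sys L R) {col : F → ι} {w : ι → F} {s : SignType} (hw : R w s)
    (hs : Surjective col) (no : ∀ x t, (∀ i, col (x i) = i) → ¬ R x t) : Bad L col := by
  have k : ∀ (n : ℕ) (G : Finset F), G.card = n → (∀ i, ∃ g ∈ G, col g = i) →
      ∃ V ∈ L, V ≠ 0 ∧ (∀ f, f ∉ G → V f = 0) ∧ ∀ f ∈ G, ∀ g ∈ G, col f = col g → V f = V g := by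
    intro n
    induction n using Nat.strong_induction_on with
    | _ n ih =>
    intro G hn hG
    by_cases one : ∀ f ∈ G, ∀ g ∈ G, col f = col g → f = g
    · by_contra e
      choose x x1 x2 using hG
      obtain ⟨t, ht⟩ := h.basis_of_indep hw G (fun V hV v0 => by
        by_contra q
        exact e ⟨V, hV, q, v0, fun f hf g hg k => by rw [one f hf g hg k]⟩) (x := x)
        (fun i j e => by rw [← x2 i, e, x2 j]) x1
      exact no x t x2 ht
    · push Not at one
      obtain ⟨f, hf, g, hg, hc, hfg⟩ := one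
      have a : ∀ {f g : F}, f ∈ G → g ∈ G → col f = col g → f ≠ g → ∃ V ∈ L, V ≠ 0 ∧
          (∀ e, e ∉ G → V e = 0) ∧ V f = 0 ∧ ∀ e ∈ G, ∀ e' ∈ G, col e = col e' →
            (e ≠ f ∧ e' ≠ f ∨ V g = 0) → V e = V e' := by
        intro f g hf hg hc hfg
        obtain ⟨V, hV, v0, v1, v2⟩ := ih _ (hn ▸ card_erase_lt_of_mem hf) (G.erase f) rfl fun i => by
          obtain ⟨e, e1, e2⟩ := hG i
          by_cases q : e = f
          · exact ⟨g, mem_erase.2 ⟨hfg.symm, hg⟩, by rw [← hc, ← q, e2]⟩
          · exact ⟨e, mem_erase.2 ⟨q, e1⟩, e2⟩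
        have vf := v1 f (notMem_erase _ _)
        refine ⟨V, hV, v0, fun e he => v1 e fun k => he (mem_of_mem_erase k), vf,
          fun e he e' he' q k => ?_⟩
        have b : V g = 0 → ∀ e ∈ G, col e = col f → V e = 0 := fun k e he q => by
          by_cases q1 : e = f
          · rw [q1, vf]
          · rw [v2 e (mem_erase.2 ⟨q1, he⟩) g (mem_erase.2 ⟨hfg.symm, hg⟩) (q.trans hc), k]
        by_cases k1 : e ≠ f ∧ e' ≠ f
        · exact v2 e (mem_erase.2 ⟨k1.1, he⟩) e' (mem_erase.2 ⟨k1.2, he'⟩) q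
        · have k2 : col e = col f := by
            by_contra k2
            exact k1 ⟨fun k3 => k2 (k3 ▸ rfl), fun k3 => k2 (k3 ▸ q)⟩
          rw [b (k.resolve_left k1) e he k2, b (k.resolve_left k1) e' he' (q.symm.trans k2)]
      obtain ⟨V, hV, v0, v1, v2, v3⟩ := a hf hg hc hfg
      obtain ⟨W, hW, w0, w1, w2, w3⟩ := a hg hf hc.symm hfg.symm
      by_cases q1 : V g = 0
      · exact ⟨V, hV, v0, v1, fun e he e' he' k => v3 e he e' he' k (Or.inr q1)⟩
      by_cases q2 : W f = 0
      · exact ⟨W, hW, w0, w1, fun e he e' he' k => w3 e he e' he' k (Or.inr q2)⟩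
      have b : ∀ e ∈ G, col e = col f → U.cmp V (fun e => V g * W f * W e) e = V g := by
        intro e he k
        by_cases q : e = f
        · rw [q, cmp_zero v2, mul_assoc, sq_one q2, mul_one]
        · have k1 := v3 e he g hg (k.trans hc) (Or.inl ⟨q, hfg.symm⟩)
          rw [cmp_ne (k1 ▸ q1), k1]
      refine ⟨U.cmp V fun e => V g * W f * W e, h.om.comp _ hV _ (smul_mem h.om hW), fun e => ?_,
        fun e he => by rw [cmp_zero (v1 e he), w1 e he, mul_zero], fun e he e' he' k => ?_⟩
      · exact q1 ((b f hf rfl).symm.trans (congrFun e f))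
      · by_cases q : col e = col f
        · rw [b e he q, b e' he' (k.symm.trans q)]
        · have k1 := v3 e he e' he' k (Or.inl ⟨fun k3 => q (k3 ▸ rfl), fun k3 => q (k3 ▸ k)⟩)
          have k2 := w3 e he e' he' k
            (Or.inl ⟨fun k3 => q (k3 ▸ hc.symm), fun k3 => q (k.trans (k3 ▸ hc.symm))⟩)
          simp only [U.cmp, k1, k2]
  obtain ⟨V, hV, v0, -, v2⟩ := k _ univ rfl fun i => (hs i).imp fun g e => ⟨mem_univ _, e⟩
  exact ⟨V, hV, v0, fun f g => v2 f (mem_univ _) g (mem_univ _)⟩

end Pool.Agent.Lib.MP_b7b1cf_co.Chi
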