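import Pool.Agent.Lib.MP_b7b1cf_co.Chi.Defs
import Pool.Agent.Lib.MP_b7b1cf_co.Chi.Col

/-! From the chirotope axioms to the vector and covector axioms. -/

set_option autoImplicit false
set_option linter.unusedSectionVars false

namespace Pool.Agent.Lib.MP_b7b1cf_co.Chi

open Finset Function Pool.Agent.Lib.MP_b7b1cf_co.U

universe u

variable {E : Type u} [Fintype E] [DecidableEq E] {r : ℕ} {χ : (Fin r → E) → SignType}

/-- The sign of a permutation. -/
noncomputable def sg {α : Type*} [Fintype α] [DecidableEq α] (σ : Equiv.Perm α) : SignType :=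
  SignType.sign ((Equiv.Perm.sign σ : ℤˣ) : ℤ)

section
variable {α : Type*} [Fintype α] [DecidableEq α]

theorem sg_one : sg (1 : Equiv.Perm α) = 1 := by simp [sg]

theorem sg_swap (σ : Equiv.Perm α) {a b : α} (h : a ≠ b) : sg (σ * Equiv.swap a b) = -sg σ := by
  simp [sg, Equiv.Perm.sign_swap h, Left.sign_neg]

theorem sg_ne (σ : Equiv.Perm α) : sg σ ≠ 0 := by
  simp [sg]

end

theorem IsChirotope.perm (h : IsChirotope χ) (x : Fin r → E) (σ : Equiv.Perm (Fin r)) :
    χ (x ∘ σ) = sg σ * χ x := by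
  induction σ using Equiv.Perm.swap_induction_on' with
  | one => rw [sg_one, one_mul]; rfl
  | mul_swap f a b hab ih => rw [sg_swap f hab, neg_mul, ← ih, ← h.alternating _ a b hab]; rfl

theorem IsChirotope.inj (h : IsChirotope χ) {x : Fin r → E} (hx : χ x ≠ 0) : Injective x := by
  intro i j e
  by_contra hij
  have k := h.alternating x i j hij
  have : x ∘ Equiv.swap i j = x := funext fun a => Equiv.apply_swap_eq_self e a
  rw [this] at k
  revert k hx
  cases χ x <;> simp

theorem IsChirotope.rep (h : IsChirotope χ) (x : Fin r → E) {i k : Fin r} (hk : k ≠ i) :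
    χ (update x i (x k)) = 0 := by
  by_contra e
  exact hk (h.inj e (by rw [update_of_ne hk, update_self]))

theorem IsChirotope.exch (h : IsChirotope χ) {x y : Fin r → E} (hx : χ x ≠ 0) (hy : χ y ≠ 0)
    (i : Fin r) : ∃ j, χ (update x i (y j)) * χ (update y j (x i)) = χ x * χ y := by
  have a : ∀ y, χ x * χ y = -1 → ∃ j, χ (update x i (y j)) * χ (update y j (x i)) = -1 := by
    intro y e
    by_contra q
    push Not at q
    have k := h.exchange x y i fun j => by
      have := q j
      revert this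
      cases χ (update x i (y j)) * χ (update y j (x i)) <;> simp
    rw [e] at k
    exact absurd k (by decide)
  by_cases e : χ x * χ y = -1
  · rw [e]
    exact a y e
  · have e1 : χ x * χ y = 1 := by
      revert hx hy e
      cases χ x <;> cases χ y <;> simp
    by_cases q : ∃ b, b ≠ i
    · obtain ⟨b, hb⟩ := q
      obtain ⟨j, hj⟩ := a (y ∘ Equiv.swap b i) (by rw [h.alternating y b i hb, mul_neg, e1])
      have : update (y ∘ Equiv.swap b i) j (x i) =
          update y (Equiv.swap b i j) (x i) ∘ Equiv.swap b i := by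
        funext k
        by_cases k1 : k = j
        · rw [k1, update_self, comp_apply, update_self]
        · rw [update_of_ne k1, comp_apply, comp_apply, update_of_ne ((Equiv.injective _).ne k1)]
      rw [this, h.alternating _ b i hb, mul_neg, neg_inj] at hj
      exact ⟨_, hj.trans e1.symm⟩
    · push Not at q
      have k : ∀ x y : Fin r → E, update x i (y i) = y := fun x y => funext fun k => by
        rw [q k, update_self]
      exact ⟨i, by rw [k, k, mul_comm]⟩

theorem cov_zero : (0 : E → SignType) ∈ covectors χ := ⟨[], by simp, rfl⟩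

theorem cov_cons {X Y : E → SignType} (hX : X ∈ cocircuits χ) (hY : Y ∈ covectors χ) :
    U.cmp X Y ∈ covectors χ := by
  obtain ⟨l, hl, rfl⟩ := hY
  refine ⟨X :: l, fun Z hZ => ?_, rfl⟩
  rcases List.mem_cons.1 hZ with rfl | h
  · exact hX
  · exact hl Z h

theorem cov_ind (P : (E → SignType) → Prop) (h0 : P 0)
    (h1 : ∀ X ∈ cocircuits χ, ∀ Y, P Y → P (U.cmp X Y)) : ∀ Z ∈ covectors χ, P Z := by
  rintro Z ⟨l, hl, rfl⟩
  induction l with
  | nil => exact h0
  | cons X l ih =>
    exact h1 X (hl X List.mem_cons_self) _ (ih fun Y hY => hl Y (List.mem_cons_of_mem _ hY))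

theorem cov_of_mem {X : E → SignType} (hX : X ∈ cocircuits χ) : X ∈ covectors χ := by
  have k := cov_cons hX cov_zero
  have : U.cmp X 0 = X := funext fun e => by by_cases h : X e = 0 <;> simp [U.cmp, h]
  rwa [this] at k

theorem cov_comp : ∀ X ∈ covectors χ, ∀ Y ∈ covectors χ, U.cmp X Y ∈ covectors χ := by
  intro X hX Y hY
  refine cov_ind (fun Z => U.cmp Z Y ∈ covectors χ) ?_ (fun A hA B hB => ?_) X hX
  · have : U.cmp 0 Y = Y := funext fun e => by simp [U.cmp]
    rwa [this]
  · have : U.cmp (U.cmp A B) Y = U.cmp A (U.cmp B Y) :=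
      funext fun e => by by_cases h : A e = 0 <;> simp [U.cmp, h]
    rw [this]
    exact cov_cons hA hB

theorem cov_neg : ∀ X ∈ covectors χ, -X ∈ covectors χ := by
  refine cov_ind (fun Z => -Z ∈ covectors χ) (by simpa using cov_zero) fun A hA B hB => ?_
  have : -U.cmp A B = U.cmp (-A) (-B) :=
    funext fun e => by by_cases h : A e = 0 <;> simp [U.cmp, h]
  rw [this]
  refine cov_cons ?_ hB
  obtain ⟨x, i, hx, rfl | rfl⟩ := hA
  · exact ⟨x, i, hx, Or.inr rfl⟩
  · exact ⟨x, i, hx, Or.inl (funext fun e => neg_neg _)⟩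

theorem fund_cov {x : Fin r → E} (hx : χ x ≠ 0) (i : Fin r) :
    (fun e => χ (update x i e)) ∈ covectors χ := cov_of_mem ⟨x, i, hx, Or.inl rfl⟩

theorem orth_symm {X Y : E → SignType} (h : Orth X Y) : Orth Y X := by
  unfold Orth at h ⊢
  simpa only [mul_comm] using h

theorem orth_of_opp {X Y : E → SignType}
    (h : ∀ e, X e * Y e ≠ 0 → ∃ f, X f * Y f = -(X e * Y e)) : Orth X Y := by
  by_cases q : ∀ e, X e * Y e = 0
  · exact Or.inl q
  · push Not at q
    obtain ⟨e, he⟩ := q
    obtain ⟨f, hf⟩ := h e he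
    by_cases k : X e * Y e = 1
    · exact Or.inr ⟨e, f, k, by rw [hf, k]⟩
    · have k1 : X e * Y e = -1 := by
        revert he k
        cases X e * Y e <;> simp
      exact Or.inr ⟨f, e, by rw [hf, k1, neg_neg], k1⟩

/-- Fundamental circuits. -/
theorem IsChirotope.circ (h : IsChirotope χ) {x : Fin r → E} (hx : χ x ≠ 0) {g : E}
    (hg : ∀ i, x i ≠ g) : ∃ C ∈ vectors χ, C g = 1 ∧ (∀ f, f ≠ g → (∀ i, x i ≠ f) → C f = 0) ∧
      ∀ i, C (x i) = -(χ x * χ (update x i g)) := by
  obtain ⟨C, c1, c2, c3⟩ : ∃ C : E → SignType, C g = 1 ∧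
      (∀ f, f ≠ g → (∀ i, x i ≠ f) → C f = 0) ∧ ∀ i, C (x i) = -(χ x * χ (update x i g)) := by
    refine ⟨extend x (fun i => -(χ x * χ (update x i g))) fun f => if f = g then 1 else 0,
      ?_, fun f h1 h2 => ?_, fun i => (h.inj hx).extend_apply _ _ i⟩
    · rw [extend_apply' _ _ _ fun ⟨i, e⟩ => hg i e, if_pos rfl]
    · rw [extend_apply' _ _ _ fun ⟨i, e⟩ => h2 i e, if_neg h1]
  refine ⟨C, ?_, c1, c2, c3⟩
  have a : ∀ y j, Orth (fun e => χ (update y j e)) C := by
    intro y j
    refine orth_of_opp fun e he => ?_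
    have xx := sq_one hx
    by_cases q : e = g
    · rw [q, c1, mul_one] at he ⊢
      obtain ⟨i, hi⟩ := h.exch he hx j
      rw [update_idem, update_self] at hi
      refine ⟨x i, ?_⟩
      rw [c3, mul_neg, mul_left_comm, hi, mul_left_comm, xx, mul_one]
    · obtain ⟨i, rfl⟩ : ∃ i, x i = e := by
        by_contra k
        push Not at k
        exact he (by rw [c2 e q k, mul_zero])
      have n1 : χ (update y j (x i)) ≠ 0 := left_ne_zero_of_mul he
      have n2 : χ (update x i g) ≠ 0 := fun k => he (by rw [c3, k, mul_zero, neg_zero, mul_zero])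
      obtain ⟨k, hk⟩ := h.exch n1 n2 j
      rw [update_idem, update_self] at hk
      by_cases e : k = i
      · rw [e, update_self, update_idem, update_eq_self] at hk
        refine ⟨g, ?_⟩
        rw [c1, c3, mul_one, mul_neg, neg_neg, mul_left_comm, ← hk, mul_left_comm, xx, mul_one]
      · have : update (update x i g) k (x i) = update x k g ∘ Equiv.swap k i := by
          funext l
          by_cases l1 : l = k
          · rw [l1, update_self, comp_apply, Equiv.swap_apply_left, update_of_ne (Ne.symm e)]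
          · by_cases l2 : l = i
            · rw [update_of_ne l1, l2, update_self, comp_apply, Equiv.swap_apply_right,
                update_self]
            · rw [update_of_ne l1, update_of_ne l2, comp_apply,
                Equiv.swap_apply_of_ne_of_ne l1 l2, update_of_ne l1]
        rw [this, h.alternating _ k i e, update_of_ne e] at hk
        refine ⟨x k, ?_⟩
        rw [c3, c3, mul_neg, mul_neg, neg_neg, mul_left_comm, mul_left_comm _ (χ x), ← hk, mul_neg,
          mul_neg]
  refine cov_ind (fun Z => Orth Z C) (Or.inl fun e => zero_mul _) fun A hA B hB => ?_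
  have b : Orth C A := by
    obtain ⟨y, j, -, rfl | rfl⟩ := hA
    · exact orth_symm (a y j)
    · exact orth_neg_right (orth_symm (a y j))
  exact orth_symm (perp_comp {C} A (fun X hX => hX ▸ b) B (fun X hX => hX ▸ orth_symm hB) C rfl)

theorem IsChirotope.base (h : IsChirotope χ) (B : E → Prop) (e : E) :
    (∃ X ∈ covectors χ, X e ≠ 0 ∧ ∀ f, f ≠ e → B f → X f = 0) ∨
    (∃ Y ∈ perp (covectors χ), Y e ≠ 0 ∧ ∀ f, f ≠ e → ¬ B f → Y f = 0) := by
  classical
  obtain ⟨x, hx, hm⟩ := exists_minimalFor_of_wellFoundedLT (fun x => χ x ≠ 0)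
    (fun x => (univ.filter fun i => ¬ (x i ≠ e ∧ B (x i))).card) h.nonzero
  have a : ∀ i, ¬ (x i ≠ e ∧ B (x i)) → χ (update x i e) ≠ 0 →
      ∃ X ∈ covectors χ, X e ≠ 0 ∧ ∀ f, f ≠ e → B f → X f = 0 := by
    intro i hi hn
    refine ⟨_, fund_cov hx i, hn, fun f h1 h2 => ?_⟩
    by_contra q
    have lt : (univ.filter fun k => ¬ (update x i f k ≠ e ∧ B (update x i f k))).card <
        (univ.filter fun i => ¬ (x i ≠ e ∧ B (x i))).card := by
      refine card_lt_card ⟨fun k hk => mem_filter.2 ⟨mem_univ _, ?_⟩, fun k => ?_⟩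
      · by_cases k1 : k = i
        · rwa [k1]
        · have k2 := (mem_filter.1 hk).2
          rwa [update_of_ne k1] at k2
      · have k2 := (mem_filter.1 (k (mem_filter.2 ⟨mem_univ i, hi⟩))).2
        rw [update_self] at k2
        exact k2 ⟨h1, h2⟩
    exact absurd (hm (j := update x i f) q lt.le) (not_le.2 lt)
  by_cases q : ∃ i, ¬ (x i ≠ e ∧ B (x i)) ∧ χ (update x i e) ≠ 0
  · obtain ⟨i, h1, h2⟩ := q
    exact Or.inl (a i h1 h2)
  · have n : ∀ i, x i ≠ e := fun i k =>
      q ⟨i, fun k1 => k1.1 k, by rwa [← k, update_eq_self]⟩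
    obtain ⟨C, hC, c1, c2, c3⟩ := h.circ hx n
    refine Or.inr ⟨C, hC, by rw [c1]; simp, fun f h1 h2 => ?_⟩
    by_cases k : ∀ i, x i ≠ f
    · exact c2 f h1 k
    · push Not at k
      obtain ⟨i, rfl⟩ := k
      have : χ (update x i e) = 0 := by
        by_contra k1
        exact q ⟨i, fun k2 => h2 k2.2, k1⟩
      rw [c3, this, mul_zero, neg_zero]

theorem IsChirotope.om (h : IsChirotope χ) : IsOM (covectors χ) ∧ IsOM (vectors χ) := by
  have p : Paint (covectors χ) (perp (covectors χ)) :=
    paint_of_base cov_neg (perp_neg _) (fun Y hY X hX => hY X hX) h.base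
  exact ⟨⟨cov_zero, cov_neg, cov_comp,
      elim_of_paint p.symm cov_zero cov_comp fun Y hY X hX => orth_symm (hX Y hY)⟩,
    ⟨perp_zero _, perp_neg _, perp_comp _,
      elim_of_paint p (perp_zero _) (perp_comp _) fun Y hY X hX => hY X hX⟩⟩

theorem orth_single {X Y : E → SignType} (h : Orth X Y) (e : E)
    (h0 : ∀ f, f ≠ e → X f * Y f = 0) : X e * Y e = 0 := by
  rcases h with h | ⟨a, b, h1, h2⟩
  · exact h e
  · have k1 : a = e := by
      by_contra q
      rw [h0 a q] at h1
      exact absurd h1 (by decide)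
    have k2 : b = e := by
      by_contra q
      rw [h0 b q] at h2
      exact absurd h2 (by decide)
    rw [k1, ← k2, h2] at h1
    exact absurd h1 (by decide)

theorem IsChirotope.vec_zero (h : IsChirotope χ) {x : Fin r → E} (hx : χ x ≠ 0) {V : E → SignType}
    (hV : V ∈ vectors χ) (h0 : ∀ f, (∀ i, x i ≠ f) → V f = 0) : V = 0 := by
  funext e
  by_cases q : ∀ i, x i ≠ e
  · exact h0 e q
  · push Not at q
    obtain ⟨i, rfl⟩ := q
    have k := orth_single (hV _ (fund_cov hx i)) (x i) fun f hf => by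
      by_cases q : ∀ i, x i ≠ f
      · rw [h0 f q, mul_zero]
      · push Not at q
        obtain ⟨k, rfl⟩ := q
        rw [h.rep x fun e : k = i => hf (congrArg x e), zero_mul]
    rw [update_eq_self] at k
    exact (mul_eq_zero.1 k).resolve_left hx

theorem IsChirotope.cov_eq_zero (h : IsChirotope χ) {x : Fin r → E} (hx : χ x ≠ 0)
    {Y : E → SignType} (hY : Y ∈ covectors χ) (h0 : ∀ i, Y (x i) = 0) : Y = 0 := by
  funext e
  by_cases q : ∀ i, x i ≠ e
  · obtain ⟨C, hC, c1, c2, -⟩ := h.circ hx q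
    have k := orth_single (hC Y hY) e fun f hf => by
      by_cases q : ∀ i, x i ≠ f
      · rw [c2 f hf q, mul_zero]
      · push Not at q
        obtain ⟨k, rfl⟩ := q
        rw [h0, zero_mul]
    rwa [c1, mul_one] at k
  · push Not at q
    obtain ⟨i, rfl⟩ := q
    exact h0 i

end Pool.Agent.Lib.MP_b7b1cf_co.Chi
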