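import Pool.Agent.Lib.MP_b7b1cf_co.U

/-! Coloured systems of sign vectors with signed bases: the positive case. -/

set_option autoImplicit false
set_option linter.unusedSectionVars false

namespace Pool.Agent.Lib.MP_b7b1cf_co.Chi

open Finset Function Pool.Agent.Lib.MP_b7b1cf_co.U

universe u v

variable {F : Type u} {ι : Type v} [Fintype F] [DecidableEq F] [Fintype ι] [DecidableEq ι]

/-- Vectors `L` and signed ordered bases `R`. -/
structure Sys (L : Set (F → SignType)) (R : (ι → F) → SignType → Prop) : Prop where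
  om : IsOM L
  ne : ∀ {w s}, R w s → s ≠ 0
  swap : ∀ {w s} (i j : ι), R w s → i ≠ j → R (w ∘ Equiv.swap i j) (-s)
  ind : ∀ {w s V}, R w s → V ∈ L → (∀ f, (∀ i, w i ≠ f) → V f = 0) → V = 0
  fund : ∀ {w s} (g : F), R w s → (∀ i, w i ≠ g) → ∃ C ∈ L, C g = 1 ∧
    (∀ f, f ≠ g → (∀ i, w i ≠ f) → C f = 0) ∧
    ∀ i, C (w i) ≠ 0 → R (update w i g) (-(s * C (w i)))

/-- A coloured tuple inside `A`. -/
def Col (col : F → ι) (A : Finset F) (w : ι → F) : Prop := ∀ i, w i ∈ A ∧ col (w i) = i

theorem cmp_zero {X Y : F → SignType} {f : F} (h : X f = 0) : U.cmp X Y f = Y f := if_pos h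

theorem cmp_ne {X Y : F → SignType} {f : F} (h : X f ≠ 0) : U.cmp X Y f = X f := if_neg h

variable {L : Set (F → SignType)} {R : (ι → F) → SignType → Prop}

theorem Sys.perm (h : Sys L R) {w : ι → F} {s : SignType} (hw : R w s) (σ : Equiv.Perm ι) :
    ∃ t, R (w ∘ σ) t := by
  induction σ using Equiv.Perm.swap_induction_on' with
  | one => exact ⟨s, hw⟩
  | mul_swap f x y hxy ih =>
    obtain ⟨t, ht⟩ := ih
    exact ⟨-t, h.swap x y ht hxy⟩

/-- A coloured tuple inside an independent set is a basis. -/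
theorem Sys.basis_of_indep (h : Sys L R) {w : ι → F} {s : SignType} (hw : R w s) (S : Finset F)
    (hS : ∀ V ∈ L, (∀ f, f ∉ S → V f = 0) → V = 0) {x : ι → F} (hx : Injective x)
    (hxS : ∀ i, x i ∈ S) : ∃ t, R x t := by
  obtain ⟨y, ⟨t, hy⟩, hm⟩ := exists_minimalFor_of_wellFoundedLT (fun y : ι → F => ∃ t, R y t)
    (fun y => (S.filter fun f => ∀ i, y i ≠ f).card) ⟨w, s, hw⟩
  have k : ∀ g ∈ S, ∃ i, y i = g := by
    intro g hg
    by_contra hn
    push Not at hn
    obtain ⟨C, hC, c1, c2, c3⟩ := h.fund g hy hn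
    by_cases e : ∃ i, C (y i) ≠ 0 ∧ y i ∉ S
    · obtain ⟨i, e1, e2⟩ := e
      have lt : (S.filter fun f => ∀ k, update y i g k ≠ f).card <
          (S.filter fun f => ∀ k, y k ≠ f).card := by
        refine card_lt_card ⟨fun f hf => ?_, fun hs => ?_⟩
        · refine mem_filter.2 ⟨(mem_filter.1 hf).1, fun k hk => ?_⟩
          by_cases e3 : k = i
          · exact e2 (e3 ▸ hk ▸ (mem_filter.1 hf).1)
          · exact (mem_filter.1 hf).2 k (by rw [update_of_ne e3, hk])
        · exact (mem_filter.1 (hs (mem_filter.2 ⟨hg, hn⟩))).2 i (update_self ..)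
      exact absurd (hm (j := update y i g) ⟨_, c3 i e1⟩ lt.le) (not_le.2 lt)
    · push Not at e
      have : C = 0 := hS C hC fun f hf => by
        by_contra e1
        by_cases e2 : ∃ i, y i = f
        · obtain ⟨i, rfl⟩ := e2
          exact hf (e i e1)
        · push Not at e2
          exact e1 (c2 f (fun e3 => hf (e3 ▸ hg)) e2)
      rw [this] at c1
      exact absurd c1 (by simp)
  choose σ hσ using fun i => k (x i) (hxS i)
  have hi : Injective σ := fun i j e => hx (by rw [← hσ, ← hσ, e])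
  obtain ⟨t', ht⟩ := h.perm hy (Equiv.ofBijective σ (Finite.injective_iff_bijective.1 hi))
  exact ⟨t', (funext hσ : y ∘ σ = x) ▸ ht⟩

/-- Moving from a positive vector towards another vector up to the first zero. -/
theorem move (hL : IsOM L) {G A : Finset F} {V U : F → SignType} (hV : V ∈ L) (hU : U ∈ L)
    (v1 : ∀ f ∈ G, V f = 1) (v0 : ∀ f, f ∉ A → V f = 0) (u0 : ∀ f, f ∉ A → U f = 0)
    (hn : ∃ f ∈ G, U f = -1) :
    ∃ W ∈ L, (∀ f, f ∉ A → W f = 0) ∧ (∀ f ∈ G, W f = 0 ∨ W f = 1) ∧ (∃ f ∈ G, W f = 0) ∧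
      ∀ f ∈ G, W f = 0 → U f = -1 := by
  obtain ⟨f0, h1, h2⟩ := hn
  obtain ⟨e, he, W, hW, w1, w2, w3⟩ := strong_elim hL.elim V hV (G.filter fun f => U f = -1) U hU
    ⟨f0, mem_filter.2 ⟨h1, h2⟩⟩ fun f hf => by
      rw [v1 f (mem_filter.1 hf).1, (mem_filter.1 hf).2]
      simp
  have k : ∀ f ∈ G, U f ≠ -1 → W f = 1 := fun f hf e => by
    rw [w3 f (Or.inr ?_), v1 f hf]
    · simp
    · rw [v1 f hf]
      intro e1
      exact e (by rw [e1, neg_neg])
  refine ⟨W, hW, fun f hf => ?_, fun f hf => ?_, ⟨e, (mem_filter.1 he).1, w1⟩, fun f hf e => ?_⟩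
  · rw [w3 f (Or.inl (v0 f hf)), if_pos (v0 f hf), u0 f hf]
  · by_cases e : U f = -1
    · rw [← v1 f hf]
      exact w2 f (mem_filter.2 ⟨hf, e⟩)
    · exact Or.inr (k f hf e)
  · by_contra e1
    rw [k f hf e1] at e
    exact absurd e (by simp)

/-- The hypotheses of the positive case. -/
structure Pos (L : Set (F → SignType)) (R : (ι → F) → SignType → Prop) (col : F → ι)
    (G Z : Finset F) (s : SignType) (V : F → SignType) : Prop where
  dis : ∀ f ∈ G, f ∉ Z
  alone : ∀ z ∈ Z, ∀ f ∈ G ∪ Z, col f = col z → f = z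
  cons : ∀ w t, Col col (G ∪ Z) w → R w t → t = s
  ex : ∃ w t, Col col (G ∪ Z) w ∧ R w t
  mem : V ∈ L
  pos : ∀ f ∈ G, V f = 1
  off : ∀ f, f ∉ G ∪ Z → V f = 0

variable {col : F → ι} {G Z : Finset F} {s : SignType} {V : F → SignType}

theorem Pos.zmem (p : Pos L R col G Z s V) {x : ι → F} (hx : Col col (G ∪ Z) x) {z : F}
    (hz : z ∈ Z) : x (col z) = z := p.alone z hz _ (hx _).1 (hx _).2

theorem Pos.not_sub (h : Sys L R) (p : Pos L R col G Z s V) {x : ι → F} {t : SignType}
    (hx : Col col (G ∪ Z) x) (hr : R x t) (hG : ∀ f ∈ G, ∃ i, x i = f) : G = ∅ := by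
  have : V = 0 := h.ind hr p.mem fun f hf => p.off f fun k => by
    rcases mem_union.1 k with k | k
    · obtain ⟨i, e⟩ := hG f k
      exact hf i e
    · exact hf _ (p.zmem hx k)
  refine eq_empty_of_forall_notMem fun f hf => ?_
  have k := p.pos f hf
  rw [this] at k
  exact absurd k (by simp)

/-- Deleting the zero set of a nonnegative vector. -/
theorem Pos.del (p : Pos L R col G Z s V) {W : F → SignType} (hW : W ∈ L)
    (w0 : ∀ f, f ∉ G ∪ Z → W f = 0) (w1 : ∀ f ∈ G, W f = 0 ∨ W f = 1) {y : ι → F} {t : SignType}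
    (hy : Col col (G ∪ Z) y) (hr : R y t) (ha : ∀ i, y i ∈ G → W (y i) ≠ 0) :
    Pos L R col (G.filter fun f => W f ≠ 0) Z s W := by
  have sub : (G.filter fun f => W f ≠ 0) ∪ Z ⊆ G ∪ Z :=
    union_subset_union (filter_subset _ _) (Subset.refl _)
  refine ⟨fun f hf => p.dis f (mem_filter.1 hf).1, fun z hz f hf => p.alone z hz f (sub hf),
    fun w t hw => p.cons w t fun i => ⟨sub (hw i).1, (hw i).2⟩, ⟨y, t, fun i => ⟨?_, (hy i).2⟩, hr⟩,
    hW, fun f hf => (w1 f (mem_filter.1 hf).1).resolve_left (mem_filter.1 hf).2, fun f hf => ?_⟩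
  · rcases mem_union.1 (hy i).1 with k | k
    · exact mem_union_left _ (mem_filter.2 ⟨k, ha i k⟩)
    · exact mem_union_right _ k
  · by_contra e
    by_cases k : f ∈ G ∪ Z
    · rcases mem_union.1 k with k | k
      · exact hf (mem_union_left _ (mem_filter.2 ⟨k, e⟩))
      · exact hf (mem_union_right _ k)
    · exact e (w0 f k)

theorem erase_ins {G Z : Finset F} {f : F} (hf : f ∈ G) : G.erase f ∪ insert f Z = G ∪ Z := by
  rw [union_insert, ← insert_union, insert_erase hf]

/-- Contracting an element that is alone in its class. -/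
theorem Pos.single (p : Pos L R col G Z s V) {f : F} (hf : f ∈ G)
    (ha : ∀ g ∈ G, col g = col f → g = f) : Pos L R col (G.erase f) (insert f Z) s V := by
  refine ⟨fun g hg k => ?_, fun z hz g hg e => ?_, by rw [erase_ins hf]; exact p.cons,
    by rw [erase_ins hf]; exact p.ex, p.mem, fun g hg => p.pos g (mem_of_mem_erase hg),
    by rw [erase_ins hf]; exact p.off⟩
  · rcases mem_insert.1 k with k | k
    · exact ne_of_mem_erase hg k
    · exact p.dis g (mem_of_mem_erase hg) k
  · rw [erase_ins hf] at hg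
    rcases mem_insert.1 hz with rfl | hz
    · rcases mem_union.1 hg with k | k
      · exact ha g k e
      · exact (p.alone g k z (mem_union_left _ hf) e.symm).symm
    · exact p.alone z hz g hg e

/-- Exchange along a series pair. -/
theorem Sys.series (h : Sys L R) {A : Finset F} {e f : F} (he : e ∈ A) (hef : f ≠ e)
    (hs : ∀ U ∈ L, (∀ g, g ∉ A → U g = 0) → U e = U f) {w : ι → F} {t : SignType} (hr : R w t)
    (hw : ∀ i, w i ∈ A) (hn : ∀ i, w i ≠ e) :
    (∃ i, w i = f) ∧ ∀ i, w i = f → R (update w i e) (-t) := by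
  obtain ⟨C, hC, c1, c2, c3⟩ := h.fund e hr hn
  have k : C f = 1 := by
    rw [← hs C hC fun g hg => c2 g (fun e1 => hg (e1 ▸ he)) fun i e1 => hg (e1 ▸ hw i), c1]
  refine ⟨?_, fun i hi => ?_⟩
  · by_contra e1
    push Not at e1
    rw [c2 f hef e1] at k
    exact absurd k (by simp)
  · have := c3 i (by rw [hi, k]; simp)
    rwa [hi, k, mul_one] at this

/-- Merging two classes along a series pair. -/
theorem Pos.merge (h : Sys L R) (p : Pos L R col G Z s V) {e f : F} (he : e ∈ G) (hf : f ∈ G)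
    (hc : col e ≠ col f) (hs : ∀ U ∈ L, (∀ g, g ∉ G ∪ Z → U g = 0) → U e = U f) :
    Pos L R (fun g => if col g = col f ∧ g ≠ f then col e else col g) (G.erase f) (insert f Z)
      s V := by
  have hef : f ≠ e := fun k => hc (k ▸ rfl)
  have he' : e ∈ G ∪ Z := mem_union_left _ he
  have hf' : f ∈ G ∪ Z := mem_union_left _ hf
  refine ⟨fun g hg k => ?_, fun z hz g hg k => ?_, fun w t hw hr => ?_, ?_, p.mem,
    fun g hg => p.pos g (mem_of_mem_erase hg), by rw [erase_ins hf]; exact p.off⟩
  · rcases mem_insert.1 k with k | k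
    · exact ne_of_mem_erase hg k
    · exact p.dis g (mem_of_mem_erase hg) k
  · rw [erase_ins hf] at hg
    rcases mem_insert.1 hz with rfl | hz
    · by_contra e1
      by_cases e2 : col g = col z
      · rw [if_pos ⟨e2, e1⟩, if_neg fun k => k.2 rfl] at k
        exact hc k
      · rw [if_neg fun k => e2 k.1, if_neg fun k => k.2 rfl] at k
        exact e2 k
    · have n1 : col z ≠ col f := fun k => p.dis f hf (p.alone z hz f hf' k.symm ▸ hz)
      have n2 : col e ≠ col z := fun k => p.dis e he (p.alone z hz e he' k ▸ hz)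
      rw [if_neg fun k : col z = col f ∧ z ≠ f => n1 k.1] at k
      split_ifs at k
      · exact absurd k n2
      · exact p.alone z hz g hg k
  · rw [erase_ins hf] at hw
    have w1 : ∀ i, w i ∈ G ∪ Z := fun i => (hw i).1
    have w2 : ∀ i, (if col (w i) = col f ∧ w i ≠ f then col e else col (w i)) = i :=
      fun i => (hw i).2
    have w3 : ∀ i, i ≠ col e → col (w i) = i := fun i hi => by
      have k := w2 i
      split_ifs at k
      · exact absurd k.symm hi
      · exact k
    have w4 : w (col f) = f := by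
      by_contra e1
      have k := w2 (col f)
      rw [if_pos ⟨w3 _ hc.symm, e1⟩] at k
      exact hc k
    by_cases q : col (w (col e)) = col f ∧ w (col e) ≠ f
    · have n : ∀ i, w i ≠ e := fun i hi => by
        by_cases e1 : i = col e
        · rw [← e1, hi] at q
          exact hc q.1
        · exact e1 (by rw [← w3 i e1, hi])
      have k := h.swap _ _ ((h.series he' hef hs hr w1 n).2 _ w4) hc
      rw [neg_neg] at k
      refine p.cons _ t (fun i => ?_) k
      by_cases e1 : i = col e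
      · rw [e1, comp_apply, Equiv.swap_apply_left, update_self]
        exact ⟨he', rfl⟩
      · by_cases e2 : i = col f
        · rw [e2, comp_apply, Equiv.swap_apply_right, update_of_ne hc]
          exact ⟨w1 _, q.1⟩
        · rw [comp_apply, Equiv.swap_apply_of_ne_of_ne e1 e2, update_of_ne e2]
          exact ⟨w1 _, w3 i e1⟩
    · refine p.cons w t (fun i => ⟨w1 i, ?_⟩) hr
      by_cases e1 : i = col e
      · have k := w2 (col e)
        rw [if_neg q] at k
        rw [e1, k]
      · exact w3 i e1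
  · rw [erase_ins hf]
    obtain ⟨x, t, hx, hr⟩ := p.ex
    by_cases q : x (col f) = f
    · refine ⟨x, t, fun i => ⟨(hx i).1, ?_⟩, hr⟩
      show (if col (x i) = col f ∧ x i ≠ f then col e else col (x i)) = i
      rw [if_neg, (hx i).2]
      rintro ⟨k1, k2⟩
      rw [(hx i).2] at k1
      exact k2 (k1 ▸ q)
    · have n : ∀ i, x i ≠ f := fun i hi => q (by rw [← hi, (hx i).2])
      obtain ⟨⟨i, hi⟩, k⟩ := h.series hf' hef.symm (fun U hU k => (hs U hU k).symm) hr
        (fun i => (hx i).1) n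
      have ei : i = col e := by rw [← hi, (hx i).2]
      subst ei
      refine ⟨_, _, fun i => ?_, h.swap _ _ (k _ hi) hc⟩
      by_cases e1 : i = col e
      · rw [e1, comp_apply, Equiv.swap_apply_left, update_of_ne hc.symm]
        exact ⟨(hx _).1, if_pos ⟨(hx _).2, q⟩⟩
      · by_cases e2 : i = col f
        · rw [e2, comp_apply, Equiv.swap_apply_right, update_self]
          exact ⟨hf', if_neg fun k => k.2 rfl⟩
        · rw [comp_apply, Equiv.swap_apply_of_ne_of_ne e1 e2, update_of_ne e1]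
          refine ⟨(hx _).1, ?_⟩
          show (if col (x i) = col f ∧ x i ≠ f then col e else col (x i)) = i
          rw [(hx i).2, if_neg fun k => e2 k.1]

/-- The positive case: with consistent signs no vector is positive on a nonempty set. -/
theorem Pos.empty (h : Sys L R) : ∀ (n : ℕ) {col : F → ι} {G Z : Finset F} {V : F → SignType},
    G.card = n → Pos L R col G Z s V → G = ∅ := by
  intro n
  induction n using Nat.strong_induction_on with
  | _ n ih =>
  intro col G Z V hn p
  by_contra hG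
  obtain ⟨x, t, hx, hr⟩ := p.ex
  have er : ∀ f ∈ G, (G.erase f).card < n := fun f hf => hn ▸ card_erase_lt_of_mem hf
  -- deleting the zero set
  have del : ∀ W ∈ L, (∀ f, f ∉ G ∪ Z → W f = 0) → (∀ f ∈ G, W f = 0 ∨ W f = 1) →
      (∃ f ∈ G, W f = 0) → ∀ y t, Col col (G ∪ Z) y → R y t → (∀ i, y i ∈ G → W (y i) ≠ 0) →
      False := by
    rintro W hW w0 w1 ⟨f, hf, e⟩ y t hy hr ha
    have k := ih _ (hn ▸ card_lt_card ⟨filter_subset _ _, fun k => (mem_filter.1 (k hf)).2 e⟩) rfl
      (p.del hW w0 w1 hy hr ha)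
    rcases mem_union.1 (hy (col f)).1 with q | q
    · have : y (col f) ∈ G.filter fun f => W f ≠ 0 := mem_filter.2 ⟨q, ha _ q⟩
      rw [k] at this
      exact notMem_empty _ this
    · exact p.dis f hf (p.alone _ q f (mem_union_left _ hf) (hy _).2.symm ▸ q)
  -- no active class is a singleton
  have two : ∀ i, x i ∈ G → ∃ g ∈ G, col g = i ∧ g ≠ x i := by
    intro i hi
    by_contra e
    push Not at e
    have k := ih _ (er _ hi) rfl (p.single hi fun g hg q => e g hg (q.trans (hx i).2))
    refine hG (p.not_sub h hx hr fun f hf => ⟨i, ?_⟩)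
    by_contra q
    exact notMem_empty f (k ▸ mem_erase.2 ⟨Ne.symm q, hf⟩)
  -- the complement of the basis is independent
  have ind : ∀ U ∈ L, (∀ f, f ∉ (G.filter fun f => ∀ i, x i ≠ f) ∪ Z → U f = 0) → U = 0 := by
    have a : ∀ U ∈ L, (∀ f, f ∉ (G.filter fun f => ∀ i, x i ≠ f) ∪ Z → U f = 0) →
        ∀ f ∈ G, U f ≠ -1 := by
      intro U hU u0 f hf e
      obtain ⟨W, hW, w0, w1, w2, w3⟩ := move h.om p.mem hU p.pos p.off
        (fun f hf => u0 f fun k => hf (union_subset_union (filter_subset _ _) (Subset.refl _) k))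
        ⟨f, hf, e⟩
      refine del W hW w0 w1 w2 x t hx hr fun i hi q => ?_
      have k := w3 _ hi q
      rw [u0 _ fun k => (mem_union.1 k).elim (fun k => (mem_filter.1 k).2 i rfl) (p.dis _ hi)] at k
      exact absurd k (by simp)
    intro U hU u0
    refine h.ind hr hU fun f hf => ?_
    by_cases q : f ∈ G
    · have k1 := a U hU u0 f q
      have k2 := a (-U) (h.om.neg U hU) (fun f hf => by simp [u0 f hf]) f q
      rw [Pi.neg_apply] at k2
      revert k1 k2
      cases U f <;> simp
    · exact u0 f fun k => (mem_union.1 k).elim (fun k => q (mem_filter.1 k).1)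
        fun k => hf _ (p.zmem hx k)
  -- a second coloured basis
  have sec : ∃ y t, Col col (G ∪ Z) y ∧ R y t ∧ ∀ i, x i ∈ G → y i ≠ x i := by
    have k : ∀ i, ∃ g, g ∈ (G.filter fun f => ∀ i, x i ≠ f) ∪ Z ∧ col g = i ∧
        (x i ∈ G → g ≠ x i) := by
      intro i
      rcases mem_union.1 (hx i).1 with q | q
      · obtain ⟨g, g1, g2, g3⟩ := two i q
        refine ⟨g, mem_union_left _ (mem_filter.2 ⟨g1, fun k e => g3 ?_⟩), g2, fun _ => g3⟩
        rw [← g2, ← e, (hx k).2]
      · exact ⟨x i, mem_union_right _ q, (hx i).2, fun k => absurd q (p.dis _ k)⟩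
    choose y y1 y2 y3 using k
    obtain ⟨t', ht⟩ := h.basis_of_indep hr _ ind (x := y)
      (fun i j e => by rw [← y2 i, e, y2 j]) y1
    exact ⟨y, t', fun i => ⟨union_subset_union (filter_subset _ _) (Subset.refl _) (y1 i), y2 i⟩,
      ht, y3⟩
  -- a minimal zero set
  obtain ⟨f0, hf0⟩ := nonempty_iff_ne_empty.2 hG
  obtain ⟨W0, hW0, a0, a1, a2, -⟩ := move h.om p.mem (h.om.neg V p.mem) p.pos p.off
    (fun f hf => by simp [p.off f hf]) ⟨f0, hf0, by simp [p.pos f0 hf0]⟩
  obtain ⟨W, ⟨hW, w0, w1, e, he, we⟩, hm⟩ := exists_minimalFor_of_wellFoundedLT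
    (fun W : F → SignType => W ∈ L ∧ (∀ f, f ∉ G ∪ Z → W f = 0) ∧ (∀ f ∈ G, W f = 0 ∨ W f = 1) ∧
      ∃ f ∈ G, W f = 0) (fun W => (G.filter fun f => W f = 0).card) ⟨W0, hW0, a0, a1, a2⟩
  have ser : ∀ U ∈ L, (∀ g, g ∉ G ∪ Z → U g = 0) → ∀ e ∈ G, W e = 0 → ∀ f ∈ G, W f = 0 →
      U f = -1 → U e = -1 := by
    intro U hU u0 e he we f hf wf uf
    by_contra ue
    obtain ⟨W', hW', b0, b1, b2, b3⟩ := move h.om p.mem (h.om.comp W hW U hU) p.pos p.off
      (fun g hg => by rw [cmp_zero (w0 g hg), u0 g hg]) ⟨f, hf, by rw [cmp_zero wf, uf]⟩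
    have lt : (G.filter fun f => W' f = 0).card < (G.filter fun f => W f = 0).card := by
      refine card_lt_card ⟨fun g hg => mem_filter.2 ⟨(mem_filter.1 hg).1, ?_⟩, fun k => ?_⟩
      · have q := b3 g (mem_filter.1 hg).1 (mem_filter.1 hg).2
        refine (w1 g (mem_filter.1 hg).1).resolve_right fun q1 => ?_
        rw [cmp_ne (by rw [q1]; simp), q1] at q
        exact absurd q (by simp)
      · have q := b3 e he (mem_filter.1 (k (mem_filter.2 ⟨he, we⟩))).2
        rw [cmp_zero we] at q
        exact ue q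
    exact absurd (hm (j := W') ⟨hW', b0, b1, b2⟩ lt.le) (not_le.2 lt)
  by_cases one : ∀ f ∈ G, W f = 0 → f = e
  · obtain ⟨y, t', hy, hr', hxy⟩ := sec
    by_cases q : x (col e) = e
    · refine del W hW w0 w1 ⟨e, he, we⟩ y t' hy hr' fun i hi k => ?_
      have k1 := one _ hi k
      have k2 : i = col e := by rw [← k1, (hy i).2]
      exact hxy i (by rw [k2, q]; exact he) (by rw [k1, k2, q])
    · refine del W hW w0 w1 ⟨e, he, we⟩ x t hx hr fun i hi k => q ?_
      rw [← one _ hi k, (hx i).2]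
  · push Not at one
    obtain ⟨f, hf, wf, hfe⟩ := one
    have hs : ∀ U ∈ L, (∀ g, g ∉ G ∪ Z → U g = 0) → U e = U f := by
      intro U hU u0
      have k1 := ser U hU u0 e he we f hf wf
      have k2 := ser U hU u0 f hf wf e he we
      have k3 := ser (-U) (h.om.neg U hU) (fun g hg => by simp [u0 g hg]) e he we f hf wf
      have k4 := ser (-U) (h.om.neg U hU) (fun g hg => by simp [u0 g hg]) f hf wf e he we
      rw [Pi.neg_apply, Pi.neg_apply] at k3 k4
      revert k1 k2 k3 k4
      cases U e <;> cases U f <;> simp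
    by_cases hc : col e = col f
    · have a : ∀ {e f : F}, e ∈ G → f ≠ e → col e = col f →
          (∀ U ∈ L, (∀ g, g ∉ G ∪ Z → U g = 0) → U e = U f) → x (col e) = e := by
        intro e f he hfe hc hs
        by_contra q
        have n : ∀ i, x i ≠ e := fun i hi => q (by rw [← hi, (hx i).2])
        obtain ⟨⟨i, hi⟩, k⟩ := h.series (mem_union_left _ he) hfe hs hr (fun i => (hx i).1) n
        have k1 := p.cons _ _ (fun j => ?_) (k i hi)
        · have k2 := h.ne hr
          rw [← p.cons x t hx hr] at k1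
          revert k1 k2
          cases t <;> simp
        · by_cases e1 : j = i
          · rw [e1, update_self, hc, ← hi, (hx i).2]
            exact ⟨mem_union_left _ he, rfl⟩
          · rw [update_of_ne e1]
            exact hx j
      exact hfe ((a hf hfe.symm hc.symm fun U hU k => (hs U hU k).symm).symm.trans
        (hc ▸ a he hfe hc hs))
    · exact notMem_empty e (ih _ (er f hf) rfl (p.merge h he hf hc hs) ▸ mem_erase.2 ⟨hfe.symm, he⟩)

end Pool.Agent.Lib.MP_b7b1cf_co.Chi
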