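import Pool.Agent.Lib.MP_b7b1cf_co.Chi.Basic

/-! The doubled ground set: vectors of the first and covectors of the second chirotope. -/

set_option autoImplicit false
set_option linter.unusedSectionVars false

namespace Pool.Agent.Lib.MP_b7b1cf_co.Chi

open Finset Function Pool.Agent.Lib.MP_b7b1cf_co.U

universe u

variable {E : Type u} [Fintype E] [DecidableEq E] {r : ℕ} {χ₁ χ₂ : (Fin r → E) → SignType}

/-- Signed ordered bases of the direct sum of the first matroid and the dual of the second. -/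
def RR (χ₁ χ₂ : (Fin r → E) → SignType) (w : E → E ⊕ E) (s : SignType) : Prop :=
  ∃ (p x : Fin r → E) (τ : Equiv.Perm E), Injective p ∧ (∀ k, w (p k) = Sum.inl (x k)) ∧
    (∀ a, (∀ k, p k ≠ a) → w a = Sum.inr (τ a)) ∧ s ≠ 0 ∧ s = χ₁ x * χ₂ (τ ∘ p) * sg τ

theorem dbl_sys (h₁ : IsChirotope χ₁) (h₂ : IsChirotope χ₂) :
    Sys (dsum (vectors χ₁) (covectors χ₂)) (RR χ₁ χ₂) := by
  refine ⟨dsum_isOM h₁.om.2 h₂.om.1, fun ⟨_, _, _, _, _, _, k, _⟩ => k, ?_, ?_, ?_⟩
  · rintro w s a b ⟨p, x, τ, hp, w1, w2, s0, rfl⟩ hab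
    refine ⟨Equiv.swap a b ∘ p, x, τ * Equiv.swap a b, (Equiv.injective _).comp hp, fun k => ?_,
      fun c hc => ?_, by simpa using s0, ?_⟩
    · rw [comp_apply, comp_apply, Equiv.swap_apply_self, w1]
    · refine w2 _ fun k e => hc k ?_
      rw [comp_apply, e, Equiv.swap_apply_self]
    · have : ⇑(τ * Equiv.swap a b) ∘ Equiv.swap a b ∘ p = τ ∘ p := funext fun k => by simp
      rw [this, sg_swap τ hab, mul_neg]
  · rintro w s V ⟨p, x, τ, hp, w1, w2, s0, rfl⟩ ⟨v1, v2⟩ h0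
    have n1 : χ₁ x ≠ 0 := left_ne_zero_of_mul (left_ne_zero_of_mul s0)
    have n2 : χ₂ (τ ∘ p) ≠ 0 := right_ne_zero_of_mul (left_ne_zero_of_mul s0)
    have k1 := h₁.vec_zero n1 v1 fun f hf => h0 _ fun a e => by
      by_cases q : ∀ k, p k ≠ a
      · rw [w2 a q] at e
        exact Sum.inr_ne_inl e
      · push Not at q
        obtain ⟨k, rfl⟩ := q
        rw [w1] at e
        exact hf k (Sum.inl_injective e)
    have k2 := h₂.cov_eq_zero n2 v2 fun i => h0 _ fun a e => by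
      by_cases q : ∀ k, p k ≠ a
      · rw [w2 a q] at e
        exact q i (τ.injective (Sum.inr_injective e)).symm
      · push Not at q
        obtain ⟨k, rfl⟩ := q
        rw [w1] at e
        exact Sum.inl_ne_inr e
    funext f
    rcases f with f | f
    · exact congrFun k1 f
    · exact congrFun k2 f
  · rintro w s g ⟨p, x, τ, hp, w1, w2, s0, rfl⟩ hg
    have n1 : χ₁ x ≠ 0 := left_ne_zero_of_mul (left_ne_zero_of_mul s0)
    have n2 : χ₂ (τ ∘ p) ≠ 0 := right_ne_zero_of_mul (left_ne_zero_of_mul s0)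
    rcases g with e | e
    · obtain ⟨C, hC, c1, c2, c3⟩ := h₁.circ n1 (g := e) fun i k => hg (p i) (by rw [w1, k])
      refine ⟨Sum.elim C 0, ⟨hC, cov_zero⟩, c1, ?_, fun a ha => ?_⟩
      · rintro (f | f) k1 k2
        · exact c2 f (fun k => k1 (by rw [k])) fun i k => k2 (p i) (by rw [w1, k])
        · rfl
      · by_cases q : ∀ k, p k ≠ a
        · rw [w2 a q] at ha
          exact absurd rfl ha
        · push Not at q
          obtain ⟨k, rfl⟩ := q
          refine ⟨p, update x k e, τ, hp, fun l => ?_, fun a ha => ?_,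
            fun z => mul_ne_zero s0 ha (SignType.neg_eq_zero_iff.1 z), ?_⟩
          · by_cases q : l = k
            · rw [q, update_self, update_self]
            · rw [update_of_ne (hp.ne q), update_of_ne q, w1]
          · rw [update_of_ne (ha k).symm, w2 a ha]
          · rw [w1, Sum.elim_inl, c3, mul_neg, neg_neg]
            calc _ = χ₁ (update x k e) * χ₂ (τ ∘ p) * sg τ * (χ₁ x * χ₁ x) := by ac_rfl
              _ = _ := by rw [sq_one n1, mul_one]
    · obtain ⟨k, rfl⟩ : ∃ k, τ (p k) = e := by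
        by_contra q
        push Not at q
        refine hg (τ.symm e) ?_
        rw [w2 _ fun k e1 => q k (by rw [e1, Equiv.apply_symm_apply]), Equiv.apply_symm_apply]
      refine ⟨Sum.elim 0 fun f => χ₂ (τ ∘ p) * χ₂ (update (τ ∘ p) k f),
        ⟨h₁.om.2.zero, smul_mem h₂.om.1 (fund_cov n2 k)⟩, ?_, ?_, fun a ha => ?_⟩
      · show χ₂ (τ ∘ p) * χ₂ (update (τ ∘ p) k ((τ ∘ p) k)) = 1
        rw [update_eq_self, sq_one n2]
      · rintro (f | f) k1 k2
        · rfl
        · obtain ⟨l, rfl⟩ : ∃ l, τ (p l) = f := by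
            by_contra q
            push Not at q
            refine k2 (τ.symm f) ?_
            rw [w2 _ fun k e1 => q k (by rw [e1, Equiv.apply_symm_apply]), Equiv.apply_symm_apply]
          show χ₂ (τ ∘ p) * χ₂ (update (τ ∘ p) k ((τ ∘ p) l)) = 0
          rw [h₂.rep _ fun e : l = k => k1 (by rw [e]), mul_zero]
      · by_cases q : ∀ k, p k ≠ a
        · refine ⟨p, x, τ * Equiv.swap a (p k), hp, fun l => ?_, fun b hb => ?_,
            fun z => mul_ne_zero s0 ha (SignType.neg_eq_zero_iff.1 z), ?_⟩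
          · rw [update_of_ne (q l), w1]
          · by_cases e : b = a
            · rw [e, update_self, Equiv.Perm.mul_apply, Equiv.swap_apply_left]
            · rw [update_of_ne e, w2 b hb, Equiv.Perm.mul_apply,
                Equiv.swap_apply_of_ne_of_ne e (hb k).symm]
          · have : ⇑(τ * Equiv.swap a (p k)) ∘ p = update (τ ∘ p) k (τ a) := by
              funext l
              by_cases e : l = k
              · rw [e, update_self, comp_apply, Equiv.Perm.mul_apply, Equiv.swap_apply_right]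
              · rw [update_of_ne e, comp_apply, Equiv.Perm.mul_apply,
                  Equiv.swap_apply_of_ne_of_ne (q l) (hp.ne e), comp_apply]
            rw [this, sg_swap τ (q k).symm, w2 a q, Sum.elim_inr, mul_neg, neg_inj]
            calc _ = χ₁ x * χ₂ (update (τ ∘ p) k (τ a)) * sg τ * (χ₂ (τ ∘ p) * χ₂ (τ ∘ p)) := by
                  ac_rfl
              _ = _ := by rw [sq_one n2, mul_one]
        · push Not at q
          obtain ⟨l, rfl⟩ := q
          rw [w1] at ha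
          exact absurd rfl ha

/-- The sign of a coloured basis. -/
theorem dbl_eval (h₂ : IsChirotope χ₂) {w : E → E ⊕ E} {s : SignType}
    (hw : ∀ a, Sum.elim id id (w a) = a) (h : RR χ₁ χ₂ w s) :
    ∃ p : Fin r → E, Injective p ∧ (∀ a, (∃ k, p k = a) ↔ w a = Sum.inl a) ∧ s = χ₁ p * χ₂ p := by
  obtain ⟨p, x, τ, hp, w1, w2, -, rfl⟩ := h
  have e1 : x = p := funext fun k => by
    have := hw (p k)
    rwa [w1] at this
  have e2 : ∀ a, (∀ k, p k ≠ a) → τ a = a := fun a ha => by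
    have := hw a
    rwa [w2 a ha] at this
  subst e1
  have e3 : ∀ k, ∃ l, x l = τ (x k) := fun k => by
    by_contra q
    push Not at q
    exact q k (τ.injective (e2 _ q)).symm
  choose ρ hρ using e3
  have hi : Injective ρ := fun i j e => hp (τ.injective (by rw [← hρ, ← hρ, e]))
  have e4 : τ = Equiv.Perm.viaFintypeEmbedding
      (Equiv.ofBijective ρ (Finite.injective_iff_bijective.1 hi)) ⟨x, hp⟩ := by
    ext a
    by_cases q : ∀ k, x k ≠ a
    · rw [e2 a q, Equiv.Perm.viaFintypeEmbedding_apply_notMem_range]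
      rintro ⟨k, e⟩
      exact q k e
    · push Not at q
      obtain ⟨k, rfl⟩ := q
      exact (hρ k).symm.trans (Equiv.Perm.viaFintypeEmbedding_apply_image
        (Equiv.ofBijective ρ (Finite.injective_iff_bijective.1 hi)) ⟨x, hp⟩ k).symm
  have e5 : sg τ = sg (Equiv.ofBijective ρ (Finite.injective_iff_bijective.1 hi)) := by
    rw [sg, sg, e4, Equiv.Perm.viaFintypeEmbedding_sign]
  refine ⟨x, hp, fun a => ⟨?_, fun e => ?_⟩, ?_⟩
  · rintro ⟨k, rfl⟩
    exact w1 k
  · by_contra q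
    push Not at q
    rw [w2 a q] at e
    exact Sum.inr_ne_inl e
  · have : τ ∘ x = x ∘ Equiv.ofBijective ρ (Finite.injective_iff_bijective.1 hi) :=
      funext fun k => (hρ k).symm
    rw [this, h₂.perm, ← e5]
    calc _ = χ₁ x * χ₂ x * (sg τ * sg τ) := by ac_rfl
      _ = _ := by rw [sq_one (sg_ne τ), mul_one]

theorem dbl_of_common (h₁ : IsChirotope χ₁) {p : Fin r → E} (hp : χ₁ p * χ₂ p ≠ 0) :
    ∃ w : E → E ⊕ E, (∀ a, Sum.elim id id (w a) = a) ∧ RR χ₁ χ₂ w (χ₁ p * χ₂ p) := by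
  refine ⟨fun a => if ∃ k, p k = a then Sum.inl a else Sum.inr a, fun a => ?_,
    p, p, 1, h₁.inj (left_ne_zero_of_mul hp), fun k => if_pos ⟨k, rfl⟩,
    fun a ha => if_neg fun ⟨k, e⟩ => ha k e, hp, by rw [sg_one, mul_one]; rfl⟩
  dsimp only
  split_ifs <;> rfl

theorem dbl_fn (h₁ : IsChirotope χ₁) (h₂ : IsChirotope χ₂) (w : E → E ⊕ E) (s t : SignType)
    (hw : ∀ a, Sum.elim id id (w a) = a) (hs : RR χ₁ χ₂ w s) (ht : RR χ₁ χ₂ w t) : s = t := by
  obtain ⟨p, hp, p1, rfl⟩ := dbl_eval h₂ hw hs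
  obtain ⟨q, hq, q1, rfl⟩ := dbl_eval h₂ hw ht
  choose ρ hρ using fun k => (p1 (q k)).2 ((q1 _).1 ⟨k, rfl⟩)
  have hi : Injective ρ := fun i j e => hq (by rw [← hρ, ← hρ, e])
  have : q = p ∘ Equiv.ofBijective ρ (Finite.injective_iff_bijective.1 hi) :=
    funext fun k => (hρ k).symm
  rw [this, h₁.perm, h₂.perm, mul_mul_mul_comm, sq_one (sg_ne _), one_mul]

theorem dbl_ex (h₁ : IsChirotope χ₁) (h₂ : IsChirotope χ₂) : ∃ w s, RR χ₁ χ₂ w s := by
  obtain ⟨x, hx⟩ := h₁.nonzero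
  obtain ⟨y, hy⟩ := h₂.nonzero
  refine ⟨extend y (fun k => Sum.inl (x k)) Sum.inr, _, y, x, 1, h₂.inj hy,
    fun k => (h₂.inj hy).extend_apply _ _ k,
    fun a ha => extend_apply' _ _ _ fun ⟨k, e⟩ => ha k e, ?_, rfl⟩
  exact mul_ne_zero (mul_ne_zero hx hy) (sg_ne _)

/-- A common element exists exactly when the products of the chirotopes vanish or take both
signs. -/
theorem common_iff (h₁ : IsChirotope χ₁) (h₂ : IsChirotope χ₂) :
    (∃ Y : E → SignType, Y ≠ 0 ∧ Y ∈ vectors χ₁ ∧ Y ∈ covectors χ₂) ↔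
      (∀ x, χ₁ x * χ₂ x = 0) ∨ ∃ x y, χ₁ x * χ₂ x * χ₁ y * χ₂ y = -1 := by
  have S := dbl_sys h₁ h₂
  constructor
  · rintro ⟨Y, y0, y1, y2⟩
    by_contra q
    push Not at q
    obtain ⟨⟨x, hx⟩, q⟩ := q
    obtain ⟨w, w1, w2⟩ := dbl_of_common h₁ hx
    have k := S.of_cons (col := Sum.elim id id) (s := χ₁ x * χ₂ x) (fun v t hv ht => ?_) w1 w2
      (V := Sum.elim Y Y) ⟨y1, y2⟩ ?_
    · exact y0 (funext fun e => congrFun k (Sum.inl e))
    · have t0 := S.ne ht
      obtain ⟨p, -, -, rfl⟩ := dbl_eval h₂ hv ht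
      have k := q x p
      rw [mul_assoc] at k
      revert k t0 hx
      cases χ₁ x * χ₂ x <;> cases χ₁ p * χ₂ p <;> simp
    · rintro (a | a) (b | b) e <;> exact congrArg Y e
  · intro q
    have k : Bad (dsum (vectors χ₁) (covectors χ₂)) (Sum.elim id id : E ⊕ E → E) := by
      rcases q with q | ⟨x, y, q⟩
      · obtain ⟨w, s, hw⟩ := dbl_ex h₁ h₂
        refine S.bad_of_none hw (fun a => ⟨Sum.inl a, rfl⟩) fun v t hv ht => ?_
        have t0 := S.ne ht
        obtain ⟨p, -, -, rfl⟩ := dbl_eval h₂ hv ht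
        exact t0 (q p)
      · rw [mul_assoc] at q
        have k : χ₁ x * χ₂ x ≠ 0 ∧ χ₁ y * χ₂ y ≠ 0 ∧ χ₁ x * χ₂ x ≠ χ₁ y * χ₂ y := by
          revert q
          cases χ₁ x * χ₂ x <;> cases χ₁ y * χ₂ y <;> simp
        obtain ⟨v, v1, v2⟩ := dbl_of_common h₁ k.1
        obtain ⟨w, w1, w2⟩ := dbl_of_common h₁ k.2.1
        exact S.bad_of_opp (dbl_fn h₁ h₂) ⟨(v, w), v1, w1, _, _, v2, w2, k.2.2⟩
    obtain ⟨V, ⟨v1, v2⟩, v0, hV⟩ := k
    have e : (fun e => V (Sum.inr e)) = fun e => V (Sum.inl e) := funext fun a => hV _ _ rfl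
    refine ⟨fun e => V (Sum.inl e), fun z => v0 (funext ?_), v1, e ▸ v2⟩
    rintro (a | a)
    · exact congrFun z a
    · exact (congrFun e a).trans (congrFun z a)

end Pool.Agent.Lib.MP_b7b1cf_co.Chi
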