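import Mathlib

/-! Oriented matroids given by chirotopes: covectors and vectors. -/

set_option autoImplicit false

namespace Pool.Agent.Lib.MP_b7b1cf_co.Chi

universe u

/-- The chirotope axioms: not identically zero, alternating, and the signed exchange
(Grassmann-Pluecker) axiom. -/
structure IsChirotope {E : Type u} {r : ℕ} (χ : (Fin r → E) → SignType) : Prop where
  nonzero : ∃ x, χ x ≠ 0
  alternating : ∀ (x : Fin r → E) (i j : Fin r), i ≠ j → χ (x ∘ Equiv.swap i j) = -χ x
  exchange : ∀ (x y : Fin r → E) (i : Fin r),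
    (∀ j, 0 ≤ χ (Function.update x i (y j)) * χ (Function.update y j (x i))) → 0 ≤ χ x * χ y

/-- The signed cocircuits: put a free element in one place of an ordered basis. -/
def cocircuits {E : Type u} {r : ℕ} (χ : (Fin r → E) → SignType) : Set (E → SignType) :=
  {D | ∃ (x : Fin r → E) (i : Fin r), χ x ≠ 0 ∧
    (D = (fun e => χ (Function.update x i e)) ∨ D = fun e => -χ (Function.update x i e))}

/-- The covectors: compositions of signed cocircuits. -/
def covectors {E : Type u} {r : ℕ} (χ : (Fin r → E) → SignType) : Set (E → SignType) :=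
  {Z | ∃ l : List (E → SignType), (∀ X ∈ l, X ∈ cocircuits χ) ∧
    Z = l.foldr (fun X Y e => if X e = 0 then Y e else X e) 0}

/-- The vectors: sign vectors orthogonal to all covectors. -/
def vectors {E : Type u} {r : ℕ} (χ : (Fin r → E) → SignType) : Set (E → SignType) :=
  {Y | ∀ X ∈ covectors χ, (∀ e, X e * Y e = 0) ∨ ∃ e f, X e * Y e = 1 ∧ X f * Y f = -1}

end Pool.Agent.Lib.MP_b7b1cf_co.Chi
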